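import Pool.Agent.Q323.Henson.Exist

/-!
# No Henson graph is sunflowerable

Enumerate the vertices of the Henson graph `H_n` and label each vertex `v` by the two-element set
`{v, a(v)'}` where `a(v)` is the first neighbour of `v` in the enumeration and the prime denotes a
disjoint copy of the vertex set.  If a set of vertices is a sunflower, then the map `a` is constant
or injective on it.  In the first case all its vertices are neighbours of one vertex, so they induce
a `K_{n-1}`-free graph.  In the second case no vertex of the set has infinitely many neighbours in
it, since the first neighbour of each neighbour of `u` does not come after `u`.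
-/

set_option autoImplicit false

namespace Pool.Agent.Results.MP_ac8c78_lc.NotSunflowerable

open Pool.Agent.Q323.Henson

/-- **For every `n ≥ 3` the Henson graph `H_n` exists and is not sunflowerable.** -/
theorem result (n : ℕ) (hn : 3 ≤ n) :
    (∃ (V : Type) (G : SimpleGraph V), IsHenson n G) ∧
    ∀ (V : Type) (G : SimpleGraph V), IsHenson n G → ¬ Sunflowerable G :=
  ⟨⟨_, _, exists_isHenson (by omega)⟩, fun _ _ hG => not_sunflowerable hn hG⟩

end Pool.Agent.Results.MP_ac8c78_lc.NotSunflowerable
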